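import Mathlib

set_option autoImplicit false

namespace Pool.Agent.Results.MP_28ce77_lc.SublinearTesters

open FirstOrder Filter

/-! ### Structures with one unary relation -/

/-- The relation symbols of the signature: one unary symbol. -/
inductive Rel1 : ℕ → Type
  | u : Rel1 1

/-- The signature with one unary relation symbol and nothing else. -/
def L1 : Language := ⟨fun _ => Empty, Rel1⟩

/-- The relation symbol of `L1`. -/
def uSym : L1.Relations 1 := Rel1.u

/-- The structure on `Fin n` in which the unary relation is `U`. -/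
@[instance_reducible]
def str {n : ℕ} (U : Fin n → Bool) : L1.Structure (Fin n) where
  funMap := fun f _ => f.elim
  RelMap := fun {_} r xs => match r, xs with
    | Rel1.u, xs => U (xs 0) = true

/-- `U` is a model of the first-order sentence `φ`. -/
def Sat (φ : L1.Sentence) {n : ℕ} (U : Fin n → Bool) : Prop :=
  @Language.Sentence.Realize L1 (Fin n) (str U) φ

/-- Isomorphism of two structures on `Fin n`. -/
def Iso {n : ℕ} (U V : Fin n → Bool) : Prop :=
  ∃ e : Equiv.Perm (Fin n), ∀ x, V (e x) = U x

theorem Iso.equivalence (n : ℕ) : Equivalence (@Iso n) where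
  refl := fun _ => ⟨Equiv.refl _, fun _ => rfl⟩
  symm := fun {_ _} ⟨e, h⟩ => ⟨e.symm, fun x => by rw [← h (e.symm x), e.apply_symm_apply]⟩
  trans := fun {_ _ _} ⟨e, h⟩ ⟨f, g⟩ => ⟨e.trans f, fun x => by
    rw [Equiv.trans_apply, g, h]⟩

/-- Isomorphism as an equivalence relation on the `n`-element models of `φ`. -/
def isoSetoid (φ : L1.Sentence) (n : ℕ) : Setoid {U : Fin n → Bool // Sat φ U} where
  r := fun U V => Iso U.1 V.1
  iseqv :=
    { refl := fun U => (Iso.equivalence n).refl U.1
      symm := fun h => (Iso.equivalence n).symm h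
      trans := fun h g => (Iso.equivalence n).trans h g }

/-- The number of isomorphism types of `n`-element models of `φ`. -/
noncomputable def numTypes (φ : L1.Sentence) (n : ℕ) : ℕ := Nat.card (Quotient (isoSetoid φ n))

/-- The table of a structure: the list of its bits. -/
def table {n : ℕ} (U : Fin n → Bool) : List (Option Bool) := (List.ofFn U).map some

/-- A way to write a pair of structures on the tapes: the words written on the tapes
`0, 1, 2, …`, over the bits `some b` and the separator `none`. -/
abbrev Layout : Type := (n : ℕ) → (Fin n → Bool) → (Fin n → Bool) → ℕ → List (Option Bool)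

/-- Both tables on tape `0`, with a separator between them. -/
def oneTape : Layout := fun _ U V i => if i = 0 then table U ++ none :: table V else []

/-- The first table on tape `0`, the second table on tape `1`. -/
def twoTapes : Layout := fun _ U V i => if i = 0 then table U else if i = 1 then table V else []

/-! ### Multitape Turing machines -/

/-- A deterministic Turing machine with the tapes `0, …, k + 1` (infinite in both directions) over the
finite alphabet `Γ`, finite state set `Q`, start state, halting states with their output. -/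
structure Machine where
  k : ℕ
  Q : Type
  finQ : Finite Q
  Γ : Type
  finΓ : Finite Γ
  blank : Γ
  inp : Option Bool → Γ
  inj : Function.Injective inp
  ne_blank : ∀ a, inp a ≠ blank
  start : Q
  halt : Q → Option Bool
  δ : Q → (Fin (k + 2) → Γ) → Q × (Fin (k + 2) → Γ) × (Fin (k + 2) → SignType)

/-- A configuration: state, head positions, contents of the tapes. -/
structure Cfg (M : Machine) where
  q : M.Q
  head : Fin (M.k + 2) → ℤ
  tape : Fin (M.k + 2) → ℤ → M.Γ

/-- One step: nothing changes in a halting state; otherwise the scanned symbols are overwritten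
and every head moves by `-1`, `0` or `1`. -/
def Machine.next (M : Machine) (c : Cfg M) : Cfg M :=
  if (M.halt c.q).isSome then c else
    let r := M.δ c.q (fun i => c.tape i (c.head i))
    ⟨r.1, fun i => c.head i + (r.2.2 i : ℤ),
      fun i => Function.update (c.tape i) (c.head i) (r.2.1 i)⟩

/-- The initial configuration: the word `w i` on tape `i` from cell `0` on, blanks elsewhere, all
heads at cell `0`. -/
def Machine.init (M : Machine) (w : ℕ → List (Option Bool)) : Cfg M :=
  ⟨M.start, fun _ => 0, fun i j => if 0 ≤ j then ((w i.1)[j.toNat]?).elim M.blank M.inp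
    else M.blank⟩

/-- The configuration after `t` steps on the input `w`. -/
def Machine.run (M : Machine) (w : ℕ → List (Option Bool)) (t : ℕ) : Cfg M :=
  M.next^[t] (M.init w)

/-- The output after `t` steps (`none` if the machine has not halted). -/
def Machine.out (M : Machine) (w : ℕ → List (Option Bool)) (t : ℕ) : Option Bool :=
  M.halt (M.run w t).q

/-- `M` is an isomorphism testing algorithm for the class of the finite models of `φ`. -/
def Tests (lay : Layout) (M : Machine) (φ : L1.Sentence) : Prop :=
  ∀ (n : ℕ) (U V : Fin n → Bool), Sat φ U → Sat φ V →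
    ∃ t b, M.out (lay n U V) t = some b ∧ (b = true ↔ Iso U V)

/-- The number of steps until `M` halts on `w`. -/
noncomputable def Machine.steps (M : Machine) (w : ℕ → List (Option Bool)) : ℕ :=
  sInf {t | (M.out w t).isSome}

/-- The largest number of steps that `M` uses on a pair of `n`-element models of `φ`. -/
noncomputable def worst (lay : Layout) (M : Machine) (φ : L1.Sentence) (n : ℕ) : ℕ :=
  sSup {s | ∃ U V : Fin n → Bool, Sat φ U ∧ Sat φ V ∧ s = M.steps (lay n U V)}

/-- The assertion of Q1, for classes over the signature `L1`. -/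
def Assertion (lay : Layout) : Prop :=
  ∀ J K : L1.Sentence,
    (∃ q : Polynomial ℕ, ∀ n, numTypes J n ≤ q.eval (numTypes K n)) →
      ∃ p : Polynomial ℕ, ∀ α : Machine, Tests lay α K →
        ∃ β : Machine, Tests lay β J ∧
          ∀ᶠ n in atTop, worst lay β J n ≤ p.eval (worst lay α K n)

/-! ### The classes -/

/-- The formula 'the `i`-th variable is in the relation'. -/
def inU {m : ℕ} (i : Fin m) : L1.BoundedFormula Empty m :=
  Language.Relations.boundedFormula₁ uSym (Language.Term.var (Sum.inr i))

/-- No element is in the relation. -/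
def phiK : L1.Sentence := (∼(inU (0 : Fin 1))).all

/-- All elements or no elements are in the relation. -/
def phiT : L1.Sentence := ((inU (0 : Fin 2)).imp (inU (1 : Fin 2))).all.all

/-- At most one element is in the relation. -/
def phiJ : L1.Sentence :=
  ((inU (0 : Fin 2) ⊓ inU (1 : Fin 2)).imp
    ((Language.Term.var (Sum.inr (0 : Fin 2))).bdEqual (Language.Term.var (Sum.inr 1)))).all.all

theorem realize_inU {n m : ℕ} (U : Fin n → Bool) (i : Fin m) (v : Empty → Fin n)
    (xs : Fin m → Fin n) :
    @Language.BoundedFormula.Realize L1 (Fin n) (str U) Empty m (inU i) v xs ↔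
      U (xs i) = true := by
  let _ := str U
  unfold inU
  rw [Language.BoundedFormula.realize_rel₁]
  rfl

theorem sat_phiK {n : ℕ} (U : Fin n → Bool) : Sat phiK U ↔ ∀ x, U x = false := by
  let _ := str U
  unfold Sat phiK
  simp only [Language.Sentence.Realize, Language.Formula.Realize,
    Language.BoundedFormula.realize_all, Language.BoundedFormula.realize_not, realize_inU]
  constructor
  · intro h x
    simpa [Fin.snoc] using h x
  · intro h x
    simp [h]

theorem sat_phiT {n : ℕ} (U : Fin n → Bool) :
    Sat phiT U ↔ ∀ x y, U x = true → U y = true := by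
  let _ := str U
  unfold Sat phiT
  simp only [Language.Sentence.Realize, Language.Formula.Realize,
    Language.BoundedFormula.realize_all, Language.BoundedFormula.realize_imp, realize_inU]
  constructor
  · intro h x y
    simpa [Fin.snoc] using h x y
  · intro h x y
    simpa [Fin.snoc] using h x y

theorem sat_phiJ {n : ℕ} (U : Fin n → Bool) :
    Sat phiJ U ↔ ∀ x y, U x = true → U y = true → x = y := by
  let _ := str U
  unfold Sat phiJ
  simp only [Language.Sentence.Realize, Language.Formula.Realize,
    Language.BoundedFormula.realize_all, Language.BoundedFormula.realize_imp,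
    Language.BoundedFormula.realize_inf, realize_inU, Language.BoundedFormula.realize_bdEqual,
    Language.Term.realize_var, Sum.elim_inr]
  constructor
  · intro h x y hx hy
    have := h x y ⟨by simpa [Fin.snoc] using hx, by simpa [Fin.snoc] using hy⟩
    simpa [Fin.snoc] using this
  · intro h x y hxy
    have hx : U x = true := by simpa [Fin.snoc] using hxy.1
    have hy : U y = true := by simpa [Fin.snoc] using hxy.2
    have := h x y hx hy
    simpa [Fin.snoc] using this

/-! ### The class `K` -/

/-- The machine that answers 'isomorphic' at once. -/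
def triv : Machine where
  k := 0
  Q := Unit
  finQ := inferInstance
  Γ := Option (Option Bool)
  finΓ := inferInstance
  blank := none
  inp := some
  inj := Option.some_injective _
  ne_blank := fun a => by simp
  start := ()
  halt := fun _ => some true
  δ := fun _ s => ((), s, fun _ => 0)

theorem Iso.of_eq {n : ℕ} {U V : Fin n → Bool} (h : U = V) : Iso U V :=
  ⟨Equiv.refl _, fun _ => by rw [h]; rfl⟩

theorem eq_of_phiK {n : ℕ} {U V : Fin n → Bool} (hU : Sat phiK U) (hV : Sat phiK V) : U = V := by
  rw [sat_phiK] at hU hV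
  funext x
  rw [hU, hV]

theorem triv_tests (lay : Layout) : Tests lay triv phiK := by
  intro n U V hU hV
  exact ⟨0, true, rfl, fun _ => Iso.of_eq (eq_of_phiK hU hV), fun _ => rfl⟩

theorem triv_worst (lay : Layout) (n : ℕ) : worst lay triv phiK n = 0 := by
  have h : ∀ w, triv.steps w = 0 := fun w => Nat.sInf_eq_zero.2 (Or.inl rfl)
  unfold worst
  apply Nat.le_zero.1
  apply csSup_le'
  rintro s ⟨U, V, -, -, rfl⟩
  rw [h]

theorem numTypes_phiK (n : ℕ) : numTypes phiK n = 1 := by
  unfold numTypes
  rw [Nat.card_eq_one_iff_unique]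
  refine ⟨⟨fun a b => ?_⟩, ⟨Quotient.mk _ ⟨fun _ => false, (sat_phiK _).2 fun _ => rfl⟩⟩⟩
  induction a using Quotient.inductionOn with
  | h a =>
    induction b using Quotient.inductionOn with
    | h b => exact Quotient.sound (Iso.of_eq (eq_of_phiK a.2 b.2))

/-! ### The class `J` -/

theorem numTypes_two {φ : L1.Sentence} {n : ℕ} (g : {U : Fin n → Bool // Sat φ U} → Bool)
    (h : ∀ U V : {U : Fin n → Bool // Sat φ U}, Iso U.1 V.1 ↔ g U = g V)
    (hs : Function.Surjective g) : numTypes φ n = 2 := by
  let f : Quotient (isoSetoid φ n) → Bool := Quotient.lift g fun U V hUV => (h U V).1 hUV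
  have hf : Function.Bijective f := by
    constructor
    · intro a b hab
      induction a using Quotient.inductionOn with
      | h a =>
        induction b using Quotient.inductionOn with
        | h b => exact Quotient.sound ((h a b).2 hab)
    · intro b
      obtain ⟨a, ha⟩ := hs b
      exact ⟨Quotient.mk _ a, ha⟩
  unfold numTypes
  rw [Nat.card_congr (Equiv.ofBijective f hf)]
  simp

theorem numTypes_zero {φ : L1.Sentence} (h : ∀ U : Fin 0 → Bool, Sat φ U) :
    numTypes φ 0 = 1 := by
  unfold numTypes
  rw [Nat.card_eq_one_iff_unique]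
  refine ⟨⟨fun a b => ?_⟩, ⟨Quotient.mk _ ⟨fun _ => false, h _⟩⟩⟩
  induction a using Quotient.inductionOn with
  | h a =>
    induction b using Quotient.inductionOn with
    | h b => exact Quotient.sound (Iso.of_eq (funext fun x => x.elim0))

/-- The relation is nonempty. -/
def ne {n : ℕ} (U : Fin n → Bool) : Bool := decide (∃ x, U x = true)

theorem iso_ne {n : ℕ} {U V : Fin n → Bool} (h : Iso U V) : ne U = ne V := by
  obtain ⟨e, he⟩ := h
  have : (∃ x, U x = true) ↔ ∃ x, V x = true := by
    constructor
    · rintro ⟨x, hx⟩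
      exact ⟨e x, by rw [he x]; exact hx⟩
    · rintro ⟨x, hx⟩
      exact ⟨e.symm x, by rw [← he (e.symm x), e.apply_symm_apply]; exact hx⟩
  unfold ne
  simp only [this]

theorem iso_phiJ {n : ℕ} {a b : Fin n → Bool} (ha : Sat phiJ a) (hb : Sat phiJ b)
    (h1 : ne a = ne b) : Iso a b := by
  have h2 : (∃ x, a x = true) ↔ ∃ x, b x = true := decide_eq_decide.1 h1
  rw [sat_phiJ] at ha hb
  by_cases h3 : ∃ x, a x = true
  · obtain ⟨x, hx⟩ := h3
    obtain ⟨y, hy⟩ := h2.1 ⟨x, hx⟩
    refine ⟨Equiv.swap x y, fun z => ?_⟩
    have ha' : ∀ z, z ≠ x → a z = false := fun z hz => by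
      by_contra h; exact hz (ha z x (by simpa using h) hx)
    have hb' : ∀ z, z ≠ y → b z = false := fun z hz => by
      by_contra h; exact hz (hb z y (by simpa using h) hy)
    by_cases hzx : z = x
    · subst hzx; rw [Equiv.swap_apply_left, hx, hy]
    · by_cases hzy : z = y
      · subst hzy
        rw [Equiv.swap_apply_right, ha' z hzx, hb' x (Ne.symm hzx)]
      · rw [Equiv.swap_apply_of_ne_of_ne hzx hzy, ha' z hzx, hb' z hzy]
  · have h4 : ¬ ∃ x, b x = true := fun h => h3 (h2.2 h)
    refine Iso.of_eq (funext fun z => ?_)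
    have h5 : a z = false := by
      by_contra h; exact h3 ⟨z, by simpa using h⟩
    have h6 : b z = false := by
      by_contra h; exact h4 ⟨z, by simpa using h⟩
    rw [h5, h6]

theorem numTypes_phiJ (n : ℕ) : numTypes phiJ n = if n = 0 then 1 else 2 := by
  by_cases hn : n = 0
  · subst hn
    rw [if_pos rfl]
    exact numTypes_zero fun U => (sat_phiJ U).2 fun x => x.elim0
  · rw [if_neg hn]
    refine numTypes_two (fun U => ne U.1)
      (fun U V => ⟨fun h => iso_ne h, fun h => iso_phiJ U.2 V.2 h⟩) ?_
    intro b
    cases b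
    · refine ⟨⟨fun _ => false, (sat_phiJ _).2 fun x y hx _ => absurd hx (by simp)⟩, ?_⟩
      simp [ne]
    · refine ⟨⟨fun x => decide (x.1 = 0), (sat_phiJ _).2 fun x y hx hy => ?_⟩, ?_⟩
      · simp only [decide_eq_true_eq] at hx hy
        exact Fin.ext (by omega)
      · have : ∃ x : Fin n, decide (x.1 = 0) = true := ⟨⟨0, by omega⟩, by simp⟩
        simp only [ne, decide_eq_true_eq]
        exact ⟨⟨0, by omega⟩, rfl⟩

theorem eq_of_phiT {n : ℕ} {a b : Fin n → Bool} (ha : Sat phiT a) (hb : Sat phiT b)
    (h1 : ne a = ne b) : a = b := by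
  have h2 : (∃ x, a x = true) ↔ ∃ x, b x = true := decide_eq_decide.1 h1
  rw [sat_phiT] at ha hb
  funext z
  by_cases h3 : ∃ x, a x = true
  · obtain ⟨x, hx⟩ := h3
    obtain ⟨y, hy⟩ := h2.1 ⟨x, hx⟩
    rw [ha x z hx, hb y z hy]
  · have h4 : ¬ ∃ x, b x = true := fun h => h3 (h2.2 h)
    have h5 : a z = false := by
      by_contra h; exact h3 ⟨z, by simpa using h⟩
    have h6 : b z = false := by
      by_contra h; exact h4 ⟨z, by simpa using h⟩
    rw [h5, h6]

theorem numTypes_phiT (n : ℕ) : numTypes phiT n = if n = 0 then 1 else 2 := by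
  by_cases hn : n = 0
  · subst hn
    rw [if_pos rfl]
    exact numTypes_zero fun U => (sat_phiT U).2 fun x => x.elim0
  · rw [if_neg hn]
    refine numTypes_two (fun U => ne U.1)
      (fun U V => ⟨fun h => iso_ne h, fun h => Iso.of_eq (eq_of_phiT U.2 V.2 h)⟩) ?_
    intro b
    cases b
    · refine ⟨⟨fun _ => false, (sat_phiT _).2 fun x y hx => absurd hx (by simp)⟩, ?_⟩
      simp [ne]
    · refine ⟨⟨fun _ => true, (sat_phiT _).2 fun x y _ => rfl⟩, ?_⟩
      simp only [ne, decide_eq_true_eq]
      exact ⟨⟨0, by omega⟩, by simp⟩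

theorem run_succ (M : Machine) (w : ℕ → List (Option Bool)) (t : ℕ) :
    M.run w (t + 1) = M.next (M.run w t) := by
  unfold Machine.run
  rw [Function.iterate_succ_apply']

theorem out_mono (M : Machine) (w : ℕ → List (Option Bool)) {t s : ℕ} {b : Bool}
    (h : M.out w t = some b) (hs : t ≤ s) : M.out w s = some b := by
  induction s, hs using Nat.le_induction with
  | base => exact h
  | succ s hs ih =>
    have h1 : M.run w (s + 1) = M.run w s := by
      rw [run_succ]
      unfold Machine.next
      have h2 : (M.halt (M.run w s).q).isSome = true := by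
        have : M.halt (M.run w s).q = some b := ih
        rw [this]; rfl
      rw [if_pos h2]
    unfold Machine.out at ih ⊢
    rw [h1]; exact ih

theorem run_agree (M : Machine) (w w' : ℕ → List (Option Bool)) (N : ℕ)
    (h : ∀ i, ∀ j < N, (w i)[j]? = (w' i)[j]?) (t : ℕ) (ht : t ≤ N) :
    (M.run w t).q = (M.run w' t).q ∧ (M.run w t).head = (M.run w' t).head ∧
      (∀ i, |(M.run w t).head i| ≤ t) ∧
      ∀ i (j : ℤ), j < N → (M.run w t).tape i j = (M.run w' t).tape i j := by
  induction t with
  | zero =>
    refine ⟨rfl, rfl, fun i => ?_, fun i j hij => ?_⟩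
    · change |(0 : ℤ)| ≤ _
      simp
    · change (if 0 ≤ j then ((w i.1)[j.toNat]?).elim M.blank M.inp else M.blank) =
        if 0 ≤ j then ((w' i.1)[j.toNat]?).elim M.blank M.inp else M.blank
      by_cases hc : 0 ≤ j
      · rw [if_pos hc, if_pos hc, h i.1 j.toNat (by omega)]
      · rw [if_neg hc, if_neg hc]
  | succ t ih =>
    obtain ⟨h1, h2, h3, h4⟩ := ih (by omega)
    rw [run_succ, run_succ]
    generalize M.run w t = c at h1 h2 h3 h4
    generalize M.run w' t = c' at h1 h2 h3 h4
    obtain ⟨q, hd, tp⟩ := c
    obtain ⟨q', hd', tp'⟩ := c'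
    simp only at h1 h2 h3 h4
    subst h1 h2
    have hread : (fun i => tp i (hd i)) = fun i => tp' i (hd i) := by
      funext i
      apply h4
      have := h3 i
      have := abs_le.1 this
      omega
    unfold Machine.next
    simp only [hread]
    by_cases hh : (M.halt q).isSome = true
    · rw [if_pos hh, if_pos hh]
      refine ⟨rfl, rfl, fun i => ?_, h4⟩
      have := h3 i
      push_cast
      linarith
    · rw [if_neg hh, if_neg hh]
      refine ⟨rfl, rfl, fun i => ?_, fun i j hij => ?_⟩
      · have h5 := h3 i
        simp only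
        generalize (M.δ q fun i => tp' i (hd i)).2.2 i = s
        have h6 : |((s : SignType) : ℤ)| ≤ 1 := by
          cases s <;> decide
        push_cast
        calc |hd i + ((s : SignType) : ℤ)| ≤ |hd i| + |((s : SignType) : ℤ)| := abs_add_le _ _
          _ ≤ t + 1 := by linarith
      · simp only
        by_cases hj : j = hd i
        · subst hj
          rw [Function.update_self, Function.update_self]
        · rw [Function.update_of_ne hj, Function.update_of_ne hj]
          exact h4 i j hij

theorem table_get {n : ℕ} (U : Fin n → Bool) (j : ℕ) (hj : j < n) :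
    (table U)[j]? = some (some (U ⟨j, hj⟩)) := by
  unfold table
  rw [List.getElem?_map, List.getElem?_ofFn]
  simp [hj]

/-- A layout in which the first table starts tape `0` and does not influence anything else. -/
def Standard (lay : Layout) : Prop :=
  ∀ (n : ℕ) (U V W : Fin n → Bool), (∀ i, i ≠ 0 → lay n U W i = lay n V W i) ∧
    ∀ j < n, (lay n U W 0)[j]? = (table U)[j]?

theorem standard_oneTape : Standard oneTape := by
  intro n U V W
  refine ⟨fun i hi => by simp [oneTape, hi], fun j hj => ?_⟩
  simp only [oneTape, if_true]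
  rw [List.getElem?_append_left (by simpa [table] using hj)]

theorem standard_twoTapes : Standard twoTapes := by
  intro n U V W
  exact ⟨fun i hi => by simp [twoTapes, hi], fun j hj => by simp [twoTapes]⟩

theorem worst_phiJ {lay : Layout} (hlay : Standard lay) (β : Machine) (hβ : Tests lay β phiJ)
    (n : ℕ) : n ≤ worst lay β phiJ n := by
  rcases Nat.eq_zero_or_pos n with rfl | hn
  · exact Nat.zero_le _
  let U0 : Fin n → Bool := fun _ => false
  let U1 : Fin n → Bool := fun x => decide (x.1 = n - 1)
  have hU0 : Sat phiJ U0 := (sat_phiJ _).2 fun x y hx _ => absurd hx (by simp [U0])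
  have hU1 : Sat phiJ U1 := (sat_phiJ _).2 fun x y hx hy => by
    simp only [U1, decide_eq_true_eq] at hx hy
    exact Fin.ext (by omega)
  have hnot : ¬ Iso U1 U0 := by
    rintro ⟨e, he⟩
    have := he ⟨n - 1, by omega⟩
    simp [U0, U1] at this
  have hsteps : n ≤ β.steps (lay n U0 U0) := by
    by_contra hlt
    obtain ⟨t0, b0, ht0, hb0⟩ := hβ n U0 U0 hU0 hU0
    obtain ⟨t1, b1, ht1, hb1⟩ := hβ n U1 U0 hU1 hU0
    have hb0' : b0 = true := hb0.2 (Iso.of_eq rfl)
    have hmem : (β.out (lay n U0 U0) (β.steps (lay n U0 U0))).isSome := by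
      have hne : {t | (β.out (lay n U0 U0) t).isSome}.Nonempty :=
        ⟨t0, by change (β.out (lay n U0 U0) t0).isSome = true; rw [ht0]; rfl⟩
      exact Nat.sInf_mem hne
    obtain ⟨b, hb⟩ := Option.isSome_iff_exists.1 hmem
    have h1 : b = b0 := by
      have h2 := out_mono β _ hb (le_max_left _ t0)
      have h3 := out_mono β _ ht0 (le_max_right (β.steps (lay n U0 U0)) _)
      rw [h2] at h3
      exact Option.some.inj h3
    have hagree : ∀ i, ∀ j < n - 1, (lay n U0 U0 i)[j]? = (lay n U1 U0 i)[j]? := by
      intro i j hj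
      by_cases hi : i = 0
      · subst hi
        rw [(hlay n U0 U0 U0).2 j (by omega), (hlay n U1 U0 U0).2 j (by omega),
          table_get U0 j (by omega), table_get U1 j (by omega)]
        have : U1 ⟨j, by omega⟩ = false := by
          simp only [U1, decide_eq_false_iff_not]; omega
        rw [this]
      · rw [(hlay n U0 U1 U0).1 i hi]
    have h4 := (run_agree β _ _ (n - 1) hagree (β.steps (lay n U0 U0)) (by omega)).1
    have h5 : β.out (lay n U1 U0) (β.steps (lay n U0 U0)) = some b := by
      unfold Machine.out at hb ⊢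
      rw [← h4]; exact hb
    have h6 : b = b1 := by
      have h7 := out_mono β _ h5 (le_max_left _ t1)
      have h8 := out_mono β _ ht1 (le_max_right (β.steps (lay n U0 U0)) _)
      rw [h7] at h8
      exact Option.some.inj h8
    exact hnot (hb1.1 (by rw [← h6, h1, hb0']))
  refine hsteps.trans (le_csSup ?_ ⟨U0, U0, hU0, hU0, rfl⟩)
  refine Set.Finite.bddAbove (Set.Finite.subset (Set.finite_range
    fun q : (Fin n → Bool) × (Fin n → Bool) => β.steps (lay n q.1 q.2)) ?_)
  rintro s ⟨U, V, -, -, rfl⟩
  exact ⟨(U, V), rfl⟩

/-! ### The class of the models of `phiT` with two input tapes -/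

/-- The machine that compares the first symbols of the tapes `0` and `1`. -/
def cmp : Machine where
  k := 0
  Q := Option Bool
  finQ := inferInstance
  Γ := Option (Option Bool)
  finΓ := inferInstance
  blank := none
  inp := some
  inj := Option.some_injective _
  ne_blank := fun a => by simp
  start := none
  halt := id
  δ := fun _ s => (some (decide (s 0 = s 1)), s, fun _ => 0)

/-- The first symbol of tape `i`. -/
def tp (w : ℕ → List (Option Bool)) (i : Fin 2) : Option (Option Bool) := (cmp.init w).tape i 0

theorem tp_eq (w : ℕ → List (Option Bool)) (i : Fin 2) : tp w i = (w i.1)[0]? := by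
  change (if (0 : ℤ) ≤ 0 then ((w i.1)[(0 : ℤ).toNat]?).elim none some else none) = _
  rw [if_pos le_rfl]
  change ((w i.1)[0]?).elim none some = (w i.1)[0]?
  cases (w i.1)[0]? <;> rfl

theorem cmp_out {n : ℕ} (U V : Fin n → Bool) :
    cmp.out (twoTapes n U V) 1 = some (decide ((table U)[0]? = (table V)[0]?)) := by
  have h1 : cmp.out (twoTapes n U V) 1 =
      some (decide (tp (twoTapes n U V) 0 = tp (twoTapes n U V) 1)) := rfl
  rw [h1, tp_eq, tp_eq]
  rfl

theorem cmp_tests : Tests twoTapes cmp phiT := by
  intro n U V hU hV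
  refine ⟨1, _, cmp_out U V, ?_⟩
  rw [decide_eq_true_eq]
  rcases Nat.eq_zero_or_pos n with rfl | hn
  · exact ⟨fun _ => Iso.of_eq (funext fun x => x.elim0), fun _ => by simp [table]⟩
  · rw [table_get U 0 hn, table_get V 0 hn]
    have hne : ∀ W : Fin n → Bool, Sat phiT W → ne W = W ⟨0, hn⟩ := by
      intro W hW
      rw [sat_phiT] at hW
      cases h : W ⟨0, hn⟩
      · simp only [ne, decide_eq_false_iff_not]
        rintro ⟨x, hx⟩
        have := hW x ⟨0, hn⟩ hx
        rw [h] at this
        exact absurd this (by decide)
      · simp only [ne, decide_eq_true_eq]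
        exact ⟨_, h⟩
    constructor
    · intro h
      have h' : U ⟨0, hn⟩ = V ⟨0, hn⟩ := Option.some.inj (Option.some.inj h)
      exact Iso.of_eq (eq_of_phiT hU hV (by rw [hne U hU, hne V hV, h']))
    · intro h
      have h' := iso_ne h
      rw [hne U hU, hne V hV] at h'
      rw [h']

theorem cmp_worst (n : ℕ) : worst twoTapes cmp phiT n ≤ 1 := by
  unfold worst
  apply csSup_le'
  rintro s ⟨U, V, -, -, rfl⟩
  apply Nat.sInf_le
  change (cmp.out (twoTapes n U V) 1).isSome = true
  rw [cmp_out]
  rfl

/-- If some class with at least as many types as `J` is tested in a bounded number of steps, then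
the assertion of Q1 fails. -/
theorem not_assertion {lay : Layout} (hlay : Standard lay) {K : L1.Sentence} {α : Machine}
    {c : ℕ} (hq : ∃ q : Polynomial ℕ, ∀ n, numTypes phiJ n ≤ q.eval (numTypes K n))
    (hα : Tests lay α K) (hw : ∀ n, worst lay α K n ≤ c) : ¬ Assertion lay := by
  intro h
  obtain ⟨p, hp⟩ := h phiJ K hq
  obtain ⟨β, hβ, hb⟩ := hp α hα
  obtain ⟨N, hN⟩ := eventually_atTop.1 hb
  let B := ∑ i ∈ Finset.range (c + 1), p.eval i
  have hB : ∀ i ≤ c, p.eval i ≤ B := fun i hi =>
    Finset.single_le_sum (f := fun i => p.eval i) (fun _ _ => Nat.zero_le _)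
      (Finset.mem_range.2 (by omega))
  have h1 := hN (max N (B + 1)) (le_max_left _ _)
  have h2 := worst_phiJ hlay β hβ (max N (B + 1))
  have h3 : B + 1 ≤ max N (B + 1) := le_max_right _ _
  have h4 := hB _ (hw (max N (B + 1)))
  omega

/-- The assertion of Q1 is false, for both ways to write the input on the tapes. -/
theorem result :
    (∀ n, numTypes phiK n = 1) ∧ (∀ n, numTypes phiJ n = if n = 0 then 1 else 2) ∧
    (∀ n, numTypes phiT n = if n = 0 then 1 else 2) ∧
    (∀ lay : Layout, lay = oneTape ∨ lay = twoTapes →
      (∃ α : Machine, Tests lay α phiK ∧ ∀ n, worst lay α phiK n = 0) ∧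
      (∀ β : Machine, Tests lay β phiJ → ∀ n, n ≤ worst lay β phiJ n) ∧ ¬ Assertion lay) ∧
    ∃ α : Machine, Tests twoTapes α phiT ∧ ∀ n, worst twoTapes α phiT n ≤ 1 := by
  refine ⟨numTypes_phiK, numTypes_phiJ, numTypes_phiT, fun lay hlay => ?_,
    ⟨cmp, cmp_tests, cmp_worst⟩⟩
  have hs : Standard lay := by
    rcases hlay with rfl | rfl
    · exact standard_oneTape
    · exact standard_twoTapes
  refine ⟨⟨triv, triv_tests lay, triv_worst lay⟩, fun β hβ => worst_phiJ hs β hβ,
    not_assertion hs (c := 0) ⟨Polynomial.C 2, fun n => ?_⟩ (triv_tests lay)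
      (fun n => (triv_worst lay n).le)⟩
  rw [Polynomial.eval_C, numTypes_phiJ]
  split <;> omega

end Pool.Agent.Results.MP_28ce77_lc.SublinearTesters
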